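import Pool.Agent.helper66.WD.Spec

set_option autoImplicit false

universe u

namespace Pool.Agent.WD

open MvPolynomial Pool.Agent.helper92.VC

/-- `q ↦ q(z X)` -/
noncomputable def LIN_L {K : Type*} [CommRing K] (n : ℕ) :
    MvPolynomial (Fin n) K →ₐ[K] PowerSeries (MvPolynomial (Fin n) K) :=
  aeval fun l => PowerSeries.X * PowerSeries.C (X l)

theorem LIN_mon {K : Type*} [CommRing K] (n : ℕ) (s : Fin n →₀ ℕ) (a : K) :
    LIN_L n (monomial s a) = PowerSeries.X ^ s.degree * PowerSeries.C (monomial s a) := by
  unfold LIN_L
  rw [aeval_monomial, PowerSeries.algebraMap_apply]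
  have h1 : (s.prod fun i k => (PowerSeries.X * PowerSeries.C (X i : MvPolynomial (Fin n) K)) ^ k) =
      PowerSeries.X ^ s.degree * PowerSeries.C (s.prod fun i k => (X i : MvPolynomial (Fin n) K) ^ k) := by
    unfold Finsupp.prod
    rw [map_prod, Finsupp.degree_apply, ← Finset.prod_pow_eq_pow_sum, ← Finset.prod_mul_distrib]
    refine Finset.prod_congr rfl fun i _ => ?_
    show (PowerSeries.X * PowerSeries.C (X i : MvPolynomial (Fin n) K)) ^ s i =
      PowerSeries.X ^ s i * PowerSeries.C ((X i : MvPolynomial (Fin n) K) ^ s i)
    rw [mul_pow, map_pow]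
  rw [h1, monomial_eq, map_mul, MvPolynomial.algebraMap_eq]
  ring

theorem LIN_hom {K : Type*} [CommRing K] (n : ℕ) (q : MvPolynomial (Fin n) K) (j : ℕ) :
    PowerSeries.coeff j (LIN_L n q) = homogeneousComponent j q := by
  induction q using MvPolynomial.induction_on' with
  | monomial s a =>
    rw [LIN_mon, PowerSeries.coeff_X_pow_mul']
    ext t
    rw [coeff_homogeneousComponent, coeff_monomial]
    by_cases h1 : s.degree ≤ j
    · rw [if_pos h1, PowerSeries.coeff_C]
      by_cases h2 : j - s.degree = 0
      · rw [if_pos h2, coeff_monomial]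
        have h3 : s.degree = j := by omega
        by_cases h4 : s = t
        · subst h4
          rw [if_pos rfl, if_pos h3]
        · rw [if_neg h4]
          simp
      · rw [if_neg h2]
        by_cases h4 : s = t
        · subst h4
          rw [if_neg (by omega)]
          simp
        · rw [if_neg h4]
          simp
    · rw [if_neg h1]
      by_cases h4 : s = t
      · subst h4
        rw [if_neg (by omega)]
        simp
      · rw [if_neg h4]
        simp
  | add p q hp hq => rw [map_add, map_add, map_add, hp, hq]

theorem LIN : LIN_stmt.{u} := by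
  intro n K _ α p j
  have h1 : line α = (LIN_L n).comp (shift α) := by
    apply MvPolynomial.algHom_ext
    intro l
    unfold line LIN_L shift
    rw [AlgHom.comp_apply, aeval_X, aeval_X, map_add, aeval_X, aeval_C, PowerSeries.algebraMap_apply,
      MvPolynomial.algebraMap_eq]
    ring
  rw [h1, AlgHom.comp_apply, LIN_hom]

end Pool.Agent.WD
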